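import Pool.Agent.L7h32.DP.Wir

set_option autoImplicit false

/-! S_SK. -/

namespace Pool.Agent.L7h32.DP

open Finset Filter Topology MeasureTheory
open Pool.Agent.H306R2
open Pool.Agent.L7h11.DP (fc FF BB hd lam KK A0 S_SK)

noncomputable section

/-- `φ(d)/d · K_d²` -/
def gk (d : ℕ) : ℝ := (Nat.totient d : ℝ) / d * KK d ^ 2

lemma KK_nonneg (d : ℕ) : 0 ≤ KK d := by
  unfold Pool.Agent.L7h11.DP.KK
  exact prod_nonneg fun p _ => by positivity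

lemma KK_mul {m n : ℕ} (h : Nat.Coprime m n) : KK (m * n) = KK m * KK n := by
  unfold Pool.Agent.L7h11.DP.KK
  rw [h.primeFactors_mul, Finset.prod_union h.disjoint_primeFactors]

lemma KK_pp {p : ℕ} (hp : p.Prime) {a : ℕ} (ha : a ≠ 0) :
    KK (p ^ a) = 1 / 2 + 3 * (p : ℝ) ^ (-(3 / 4) : ℝ) := by
  unfold Pool.Agent.L7h11.DP.KK
  rw [Nat.primeFactors_prime_pow ha hp, Finset.prod_singleton]

lemma tot_pp {p : ℕ} (hp : p.Prime) {a : ℕ} (ha : a ≠ 0) :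
    (Nat.totient (p ^ a) : ℝ) / ((p ^ a : ℕ) : ℝ) = 1 - 1 / p := by
  have hp0 : (p : ℝ) ≠ 0 := by exact_mod_cast hp.ne_zero
  rw [Nat.totient_prime_pow hp (Nat.pos_of_ne_zero ha)]
  obtain ⟨b, rfl⟩ := Nat.exists_eq_succ_of_ne_zero ha
  have h1 : 1 ≤ p := hp.one_lt.le
  push_cast [Nat.cast_sub h1]
  simp only [Nat.succ_eq_add_one]
  rw [pow_succ]
  field_simp

lemma gk_GH : GH gk (1 / 4) 13 := by
  have key : ∀ p : ℕ, p.Prime → 0 ≤ 1 - 1 / (p : ℝ) ∧ 1 - 1 / (p : ℝ) ≤ 1 ∧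
      0 ≤ (p : ℝ) ^ (-(3 / 4) : ℝ) ∧ (p : ℝ) ^ (-(3 / 4) : ℝ) ≤ 1 ∧
      (p : ℝ) ^ (-(3 / 4) : ℝ) ≤ (p : ℝ) ^ (-(1 / 2) : ℝ) ∧
      1 / (p : ℝ) ≤ (p : ℝ) ^ (-(1 / 2) : ℝ) := by
    intro p hp
    have hp1 : (1 : ℝ) ≤ p := by exact_mod_cast hp.one_lt.le
    have h1 := inv_prime hp
    refine ⟨by linarith [h1.2], by linarith [h1.1], by positivity, ?_, ?_, ?_⟩
    · exact Real.rpow_le_one_of_one_le_of_nonpos hp1 (by norm_num)
    · exact Real.rpow_le_rpow_of_exponent_le hp1 (by norm_num)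
    · rw [one_div, ← Real.rpow_neg_one]
      exact Real.rpow_le_rpow_of_exponent_le hp1 (by norm_num)
  have hpp : ∀ p a : ℕ, p.Prime → a ≠ 0 → gk (p ^ a) =
      (1 - 1 / (p : ℝ)) * (1 / 2 + 3 * (p : ℝ) ^ (-(3 / 4) : ℝ)) ^ 2 := by
    intro p a hp ha
    unfold gk
    rw [tot_pp hp ha, KK_pp hp ha]
  refine ⟨?_, ?_, ?_, ?_, ?_⟩
  · unfold gk Pool.Agent.L7h11.DP.KK
    simp
  · intro n
    unfold gk
    positivity
  · intro m n h
    unfold gk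
    rw [Nat.totient_mul h, KK_mul h]
    push_cast
    ring
  · intro p a hp
    rcases Nat.eq_zero_or_pos a with h | h
    · subst h
      unfold gk Pool.Agent.L7h11.DP.KK
      simp
    · rw [hpp p a hp h.ne']
      obtain ⟨h1, h2, h3, h4, h5, h6⟩ := key p hp
      have h7 : (1 / 2 + 3 * (p : ℝ) ^ (-(3 / 4) : ℝ)) ^ 2 ≤ 13 := by nlinarith
      have h8 : 0 ≤ (1 / 2 + 3 * (p : ℝ) ^ (-(3 / 4) : ℝ)) ^ 2 := sq_nonneg _
      nlinarith
  · intro p hp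
    have := hpp p 1 hp one_ne_zero
    rw [pow_one] at this
    rw [this]
    obtain ⟨h1, h2, h3, h4, h5, h6⟩ := key p hp
    have h0 := (inv_prime hp).1
    set t := (p : ℝ) ^ (-(3 / 4) : ℝ)
    set r := (p : ℝ) ^ (-(1 / 2) : ℝ)
    set v := 1 / (p : ℝ)
    have h9 : t ^ 2 ≤ t := by nlinarith
    rw [abs_le]
    constructor
    · have : 0 ≤ (1 - v) * (3 * t + 9 * t ^ 2) := by positivity
      nlinarith
    · have : (1 - v) * (1 / 2 + 3 * t) ^ 2 ≤ (1 / 2 + 3 * t) ^ 2 := by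
        have := sq_nonneg (1 / 2 + 3 * t)
        nlinarith
      nlinarith

theorem s_sk : S_SK := by
  have h := wirsing gk_GH (by norm_num)
  refine ⟨_, h.congr fun x => ?_⟩
  congr 1
  refine sum_congr rfl fun d _ => ?_
  unfold gk
  ring

end

end Pool.Agent.L7h32.DP
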