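import Pool.Agent.L7h32.DP.Loc

set_option autoImplicit false

/-! S_SL. -/

namespace Pool.Agent.L7h32.DP

open Finset Filter Topology MeasureTheory
open Pool.Agent.H306R2
open Pool.Agent.L7h11.DP (fc FF BB hd lam KK A0 S_SL S_HD)

noncomputable section

lemma dv_prod (κ : ℝ) {N : ℕ} (hN : N ≠ 0) {P : Finset ℕ} (hP : N.primeFactors ⊆ P) :
    dv κ N = ∏ p ∈ P, lc κ (N.factorization p) := by
  unfold dv
  rw [if_neg hN]
  unfold Finsupp.prod
  refine Finset.prod_subset hP fun p _ hp => ?_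
  have : N.factorization p = 0 := by
    by_contra hc
    exact hp (Finsupp.mem_support_iff.mpr hc)
  rw [this]
  exact lc_zero κ

lemma fc_prod {N : ℕ} (hN : N ≠ 0) {P : Finset ℕ} (hP : N.primeFactors ⊆ P) :
    fc N = ∏ p ∈ P, lm (N.factorization p) := dv_prod _ hN hP

lemma fc_ne {d : ℕ} (hd : d ≠ 0) : fc d ≠ 0 := by
  rw [fc_prod hd (le_refl _)]
  exact prod_ne_zero_iff.mpr fun p _ => lm_ne _

/-- `m ↦ f(dm)/f(d)` -/
def Ad (d : ℕ) : ArithmeticFunction ℝ := ⟨fun m => fc (d * m) / fc d, by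
  simp [Pool.Agent.L7h11.DP.fc, dv]⟩

lemma Ad_apply (d m : ℕ) : Ad d m = fc (d * m) / fc d := rfl

lemma Ad_prod {d m : ℕ} (hd : d ≠ 0) (hm : m ≠ 0) {P : Finset ℕ} (hP : (d * m).primeFactors ⊆ P) :
    Ad d m = ∏ p ∈ P, (lm (d.factorization p + m.factorization p) / lm (d.factorization p)) := by
  rw [Ad_apply, fc_prod (mul_ne_zero hd hm) hP, fc_prod hd (P := P), ← prod_div_distrib]
  · refine prod_congr rfl fun p _ => ?_
    rw [Nat.factorization_mul hd hm, Finsupp.add_apply]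
  · exact subset_trans (Nat.primeFactors_mono (Nat.dvd_mul_right d m) (mul_ne_zero hd hm)) hP

lemma Ad_mult {d : ℕ} (hd : d ≠ 0) : (Ad d).IsMultiplicative := by
  rw [ArithmeticFunction.IsMultiplicative.iff_ne_zero]
  refine ⟨?_, fun {m n} hm hn hmn => ?_⟩
  · rw [Ad_apply, mul_one, div_self (fc_ne hd)]
  · have h1 : (d * m).primeFactors ⊆ (d * (m * n)).primeFactors :=
      Nat.primeFactors_mono ⟨n, by ring⟩ (mul_ne_zero hd (mul_ne_zero hm hn))
    have h2 : (d * n).primeFactors ⊆ (d * (m * n)).primeFactors :=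
      Nat.primeFactors_mono ⟨m, by ring⟩ (mul_ne_zero hd (mul_ne_zero hm hn))
    rw [Ad_prod hd (mul_ne_zero hm hn) (le_refl _), Ad_prod hd hm h1, Ad_prod hd hn h2,
      ← prod_mul_distrib]
    refine prod_congr rfl fun p hp => ?_
    rw [Nat.factorization_mul hm hn, Finsupp.add_apply]
    have hl := lm_ne (d.factorization p)
    by_cases hpm : p ∣ m
    · have hpn : ¬ p ∣ n := by
        intro hpn
        have hpp := Nat.prime_of_mem_primeFactors hp
        have := Nat.dvd_gcd hpm hpn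
        rw [hmn] at this
        exact hpp.one_lt.ne' (Nat.dvd_one.mp this)
      rw [Nat.factorization_eq_zero_of_not_dvd hpn]
      simp only [add_zero]
      rw [div_self hl, mul_one]
    · rw [Nat.factorization_eq_zero_of_not_dvd hpm]
      simp only [add_zero, zero_add]
      rw [div_self hl, one_mul]

lemma Ad_pp {d : ℕ} (hd : d ≠ 0) {p : ℕ} (hp : p.Prime) (i : ℕ) :
    Ad d (p ^ i) = lm (d.factorization p + i) / lm (d.factorization p) := by
  have hpi : p ^ i ≠ 0 := pow_ne_zero _ hp.ne_zero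
  rw [Ad_prod hd hpi (P := insert p (d * p ^ i).primeFactors) (Finset.subset_insert _ _),
    Finset.prod_eq_single p]
  · rw [hp.factorization_pow, Finsupp.single_eq_same]
  · intro q _ hq
    rw [hp.factorization_pow, Finsupp.single_eq_of_ne hq, add_zero]
    exact div_self (lm_ne _)
  · intro h
    exact absurd (Finset.mem_insert_self _ _) h

/-- `h_d / f(d)` -/
def et (d : ℕ) : ArithmeticFunction ℝ := Ad d * dA (1 / 2)

lemma hd_eq {d : ℕ} (h0 : d ≠ 0) (k : ℕ) : hd d k = fc d * et d k := by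
  unfold Pool.Agent.L7h11.DP.hd et
  rw [ArithmeticFunction.mul_apply, mul_sum]
  refine sum_congr rfl fun y _ => ?_
  rw [Ad_apply, dA_apply]
  have := fc_ne h0
  field_simp

lemma et_mult {d : ℕ} (h0 : d ≠ 0) : (et d).IsMultiplicative := (Ad_mult h0).mul (dA_mult _)

lemma et_pp {d : ℕ} (h0 : d ≠ 0) {p : ℕ} (hp : p.Prime) (j : ℕ) :
    et d (p ^ j) = ∑ y ∈ antidiagonal j, lm (d.factorization p + y.1) / lm (d.factorization p) * lh y.2 := by
  unfold et
  rw [mul_prime_pow _ _ hp]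
  refine sum_congr rfl fun y _ => ?_
  rw [Ad_pp h0 hp, dA_apply, dv_prime_pow _ hp]

/-- the series of `(1-x)^(-1/2)` -/
def Hh (x : ℝ) : ℝ := ∑' j : ℕ, lh j * x ^ j

lemma Fa_Hh {x : ℝ} (hx : 0 ≤ x) (hx2 : x ≤ 1 / 2) (a : ℕ) :
    Fa x a * Hh x = ∑' j : ℕ, (∑ y ∈ antidiagonal j, lm (a + y.1) * lh y.2) * x ^ j := by
  unfold Fa Hh
  rw [tsum_mul_tsum_eq_tsum_sum_antidiagonal_of_summable_norm (Fa_norm hx hx2 a) (lh_norm hx hx2)]
  refine tsum_congr fun n => ?_
  rw [sum_mul]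
  refine sum_congr rfl fun kl hkl => ?_
  rw [HasAntidiagonal.mem_antidiagonal] at hkl
  rw [← hkl, pow_add]
  ring

lemma lc0 (n : ℕ) : lc 0 n = if n = 0 then 1 else 0 := by
  rcases n with _ | n
  · simp [lc_zero]
  · rw [if_neg (by omega)]
    unfold lc
    refine prod_eq_zero (i := 0) (mem_range.mpr (by omega)) ?_
    simp

lemma Fa_Hh_zero {x : ℝ} (hx : 0 ≤ x) (hx2 : x ≤ 1 / 2) : Fa x 0 * Hh x = 1 := by
  rw [Fa_Hh hx hx2]
  have h1 : ∀ j : ℕ, (∑ y ∈ antidiagonal j, lm (0 + y.1) * lh y.2) = if j = 0 then 1 else 0 := by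
    intro j
    have h := lc_conv (-(1 / 2)) (1 / 2) j
    rw [show (-(1 / 2) : ℝ) + 1 / 2 = 0 by norm_num, lc0] at h
    rw [← h]
    refine sum_congr rfl fun y _ => ?_
    rw [zero_add]
  simp only [h1]
  rw [tsum_eq_single 0]
  · simp
  · intro j hj
    rw [if_neg hj, zero_mul]

lemma sm_of_HD (h : S_HD) {d : ℕ} (h0 : d ≠ 0) : Summable (fun k : ℕ => |hd d k| / k) := by
  refine summable_of_sum_range_le (c := KK d) (fun k => by positivity) fun n => ?_
  have h1 := h.2 d n (Nat.one_le_iff_ne_zero.mpr h0)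
  refine le_trans ?_ h1
  have h2 : ∑ k ∈ range n, |hd d k| / k ≤ ∑ k ∈ insert 0 (Icc 1 n), |hd d k| / k := by
    refine sum_le_sum_of_subset_of_nonneg (fun k hk => ?_) fun k _ _ => by positivity
    rw [mem_range] at hk
    rw [mem_insert, mem_Icc]
    omega
  refine h2.trans ?_
  rw [sum_insert (by simp)]
  simp only [Nat.cast_zero, div_zero, zero_add]
  refine sum_le_sum fun k hk => ?_
  have hk1 : (1 : ℝ) ≤ k := by exact_mod_cast (mem_Icc.mp hk).1
  rw [div_eq_mul_inv, ← Real.rpow_neg_one]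
  refine mul_le_mul_of_nonneg_left ?_ (abs_nonneg _)
  exact Real.rpow_le_rpow_of_exponent_le hk1 (by norm_num)

lemma et_term {d : ℕ} (h0 : d ≠ 0) {p : ℕ} (hp : p.Prime) :
    ∑' j : ℕ, et d (p ^ j) / ((p ^ j : ℕ) : ℝ) =
      Fa (1 / p) (d.factorization p) * Hh (1 / p) / lm (d.factorization p) := by
  have hx := inv_prime hp
  rw [Fa_Hh hx.1.le hx.2, ← tsum_div_const]
  refine tsum_congr fun j => ?_
  rw [et_pp h0 hp]
  push_cast
  rw [one_div, inv_pow, div_eq_mul_inv, mul_comm (∑ y ∈ antidiagonal j, lm _ * lh y.2), mul_div_assoc,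
    sum_div, mul_comm _ (((p : ℝ) ^ j)⁻¹)]
  congr 1
  refine sum_congr rfl fun y _ => ?_
  ring

lemma lam_prod (h : S_HD) {d : ℕ} (h0 : d ≠ 0) :
    lam d = ∏ p ∈ d.primeFactors, (Fa (1 / p) (d.factorization p) * Hh (1 / p)) := by
  have hne := fc_ne h0
  have e1 : lam d = fc d * ∑' k : ℕ, et d k / k := by
    unfold Pool.Agent.L7h11.DP.lam
    rw [← tsum_mul_left]
    refine tsum_congr fun k => ?_
    rw [hd_eq h0]
    ring
  have hs : Summable (fun k : ℕ => ‖et d k / k‖) := by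
    refine ((sm_of_HD h h0).mul_left (|fc d|⁻¹)).congr fun k => ?_
    rw [hd_eq h0, abs_mul, Real.norm_eq_abs, abs_div, Nat.abs_cast]
    have : |fc d| ≠ 0 := abs_ne_zero.mpr hne
    field_simp
  have hm := et_mult h0
  have h1 : HasProd (fun p : Nat.Primes => ∑' j : ℕ, et d ((p : ℕ) ^ j) / (((p : ℕ) ^ j : ℕ) : ℝ))
      (∑' k : ℕ, et d k / k) := by
    refine EulerProduct.eulerProduct_hasProd (f := fun k : ℕ => et d k / k) ?_ ?_ hs ?_
    · simp [hm.1]
    · intro m n hmn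
      rw [hm.2 hmn]
      push_cast
      ring
    · simp
  obtain ⟨S, hS⟩ : ∃ S : Finset Nat.Primes, S = (d.primeFactors.subtype Nat.Prime : Finset {n // Nat.Prime n}) :=
    ⟨_, rfl⟩
  have hmem : ∀ p : Nat.Primes, p ∈ S ↔ (p : ℕ) ∈ d.primeFactors := by
    intro p
    rw [hS]
    exact Finset.mem_subtype
  have h2 : ∀ p : Nat.Primes, p ∉ S →
      ∑' j : ℕ, et d ((p : ℕ) ^ j) / (((p : ℕ) ^ j : ℕ) : ℝ) = 1 := by
    intro p hp
    rw [hmem] at hp
    have h3 : d.factorization p = 0 := by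
      by_contra hc
      exact hp (Finsupp.mem_support_iff.mpr hc)
    have hx := inv_prime p.2
    rw [et_term h0 p.2, h3, Fa_Hh_zero hx.1.le hx.2]
    show 1 / lc (-(1 / 2)) 0 = 1
    rw [lc_zero, div_one]
  have h3 : (∑' k : ℕ, et d k / k) = ∏ p ∈ d.primeFactors,
      (Fa (1 / p) (d.factorization p) * Hh (1 / p) / lm (d.factorization p)) := by
    have h4 : HasProd (fun p : Nat.Primes => ∑' j : ℕ, et d ((p : ℕ) ^ j) / (((p : ℕ) ^ j : ℕ) : ℝ))
        (∏ p ∈ S, ∑' j : ℕ, et d ((p : ℕ) ^ j) / (((p : ℕ) ^ j : ℕ) : ℝ)) :=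
      hasProd_prod_of_ne_finset_one h2
    rw [HasProd.unique h1 h4, Finset.prod_congr rfl fun p _ => et_term h0 p.2, hS]
    exact Finset.prod_subtype_of_mem (s := d.primeFactors) (p := Nat.Prime)
      (fun p : ℕ => Fa (1 / (p : ℝ)) (d.factorization p) * Hh (1 / p) / lm (d.factorization p))
      fun p hp => Nat.prime_of_mem_primeFactors hp
  rw [e1, h3, fc_prod h0 (le_refl _), ← prod_mul_distrib]
  refine prod_congr rfl fun p _ => ?_
  have := lm_ne (d.factorization p)
  field_simp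

/-- `φ(d)/d · λ_d²` as a product -/
def gg (d : ℕ) : ℝ := if d = 0 then 0 else ∏ p ∈ d.primeFactors, Fa (1 / p) (d.factorization p) ^ 2

lemma gg_eq (h : S_HD) {d : ℕ} (h0 : d ≠ 0) : (Nat.totient d : ℝ) / d * lam d ^ 2 = gg d := by
  have hd0 : (d : ℝ) ≠ 0 := by exact_mod_cast h0
  have e1 : (Nat.totient d : ℝ) / d = ∏ p ∈ d.primeFactors, (1 - 1 / (p : ℝ)) := by
    have := Nat.totient_eq_mul_prod_factors d
    have h2 : ((Nat.totient d : ℚ) : ℝ) = ((d * ∏ p ∈ d.primeFactors, (1 - (p : ℚ)⁻¹) : ℚ) : ℝ) := by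
      rw [this]
    push_cast at h2
    rw [h2, mul_div_cancel_left₀ _ hd0]
    refine prod_congr rfl fun p _ => ?_
    rw [one_div]
  rw [e1, lam_prod h h0, gg, if_neg h0, ← prod_pow, ← prod_mul_distrib]
  refine prod_congr rfl fun p hp => ?_
  have hx := inv_prime (Nat.prime_of_mem_primeFactors hp)
  have h3 := lh_sq hx.1.le hx.2
  have h4 : (1 - 1 / (p : ℝ)) ≠ 0 := by
    have := hx.2
    intro h
    linarith
  rw [mul_pow]
  unfold Hh
  rw [h3]
  field_simp

lemma gg_pp {p : ℕ} (hp : p.Prime) (a : ℕ) : gg (p ^ (a + 1)) = Fa (1 / p) (a + 1) ^ 2 := by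
  unfold gg
  rw [if_neg (pow_ne_zero _ hp.ne_zero), Nat.primeFactors_prime_pow (by omega) hp,
    Finset.prod_singleton, hp.factorization_pow, Finsupp.single_eq_same]

lemma gg_one : gg 1 = 1 := by
  unfold gg
  simp

lemma gg_GH : GH gg (1 / 4) 9 := by
  refine ⟨gg_one, ?_, ?_, ?_, ?_⟩
  · intro n
    unfold gg
    split_ifs
    · exact le_rfl
    · exact prod_nonneg fun p _ => sq_nonneg _
  · intro m n hmn
    rcases Nat.eq_zero_or_pos m with hm | hm
    · subst hm
      rw [Nat.coprime_zero_left] at hmn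
      subst hmn
      rw [gg_one, mul_one]
      norm_num
    rcases Nat.eq_zero_or_pos n with hn | hn
    · subst hn
      rw [Nat.coprime_zero_right] at hmn
      subst hmn
      rw [gg_one, one_mul]
      norm_num
    unfold gg
    rw [if_neg (mul_ne_zero hm.ne' hn.ne'), if_neg hm.ne', if_neg hn.ne', hmn.primeFactors_mul,
      Finset.prod_union hmn.disjoint_primeFactors]
    congr 1
    · refine prod_congr rfl fun p hp => ?_
      have hpn : ¬ p ∣ n := by
        intro hpn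
        have hpp := Nat.prime_of_mem_primeFactors hp
        have := Nat.dvd_gcd (Nat.dvd_of_mem_primeFactors hp) hpn
        rw [hmn] at this
        exact hpp.one_lt.ne' (Nat.dvd_one.mp this)
      rw [Nat.factorization_mul hm.ne' hn.ne', Finsupp.add_apply,
        Nat.factorization_eq_zero_of_not_dvd hpn, add_zero]
    · refine prod_congr rfl fun p hp => ?_
      have hpn : ¬ p ∣ m := by
        intro hpn
        have hpp := Nat.prime_of_mem_primeFactors hp
        have := Nat.dvd_gcd hpn (Nat.dvd_of_mem_primeFactors hp)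
        rw [hmn] at this
        exact hpp.one_lt.ne' (Nat.dvd_one.mp this)
      rw [Nat.factorization_mul hm.ne' hn.ne', Finsupp.add_apply,
        Nat.factorization_eq_zero_of_not_dvd hpn, zero_add]
  · intro p a hp
    rcases a with _ | a
    · rw [pow_zero, gg_one]; norm_num
    · rw [gg_pp hp]
      have hx := inv_prime hp
      have := Fa_abs hx.1.le hx.2 (a + 1)
      rw [abs_le] at this
      nlinarith
  · intro p hp
    have h1 := gg_pp hp 0
    rw [zero_add, pow_one] at h1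
    have hx := inv_prime hp
    have h2 := Fa_succ hx.1.le hx.2 1
    have h3 := Fa_abs hx.1.le hx.2 (1 + 1)
    have h4 : lm 1 = -(1 / 2) := lc_one _
    have hp1 : (1 : ℝ) ≤ p := by exact_mod_cast hp.one_lt.le
    have h6 : 1 / (p : ℝ) ≤ (p : ℝ) ^ (-(1 / 2) : ℝ) := by
      rw [one_div, ← Real.rpow_neg_one]
      exact Real.rpow_le_rpow_of_exponent_le hp1 (by norm_num)
    rw [h1, h2, h4]
    set x := 1 / (p : ℝ)
    set F := Fa x (1 + 1)
    rw [abs_le] at h3
    have h7 : |x * F| ≤ 2 * x := by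
      rw [abs_le]
      constructor <;> nlinarith
    have h8 : |(-(1 / 2) + x * F) ^ 2 - 1 / 4| ≤ 4 * x := by
      have e : (-(1 / 2) + x * F) ^ 2 - 1 / 4 = (x * F) * (x * F - 1) := by ring
      rw [e, abs_mul]
      have h9 : |x * F - 1| ≤ 2 := by
        rw [abs_le] at h7 ⊢
        constructor <;> nlinarith
      calc |x * F| * |x * F - 1| ≤ (2 * x) * 2 := mul_le_mul h7 h9 (abs_nonneg _) (by linarith)
        _ = 4 * x := by ring
    have h10 : 0 ≤ (p : ℝ) ^ (-(1 / 2) : ℝ) := by positivity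
    linarith

theorem s_sl (h : S_HD) : S_SL := by
  have hw := wirsing gg_GH (by norm_num)
  have hA : (∏' p : Nat.Primes, ((1 - 1 / (p : ℝ)) ^ (1 / 4 : ℝ) *
        ∑' m : ℕ, gg ((p : ℕ) ^ m) * (1 / (p : ℝ)) ^ m)) = aF (1 / 2) := by
    unfold aF
    refine tprod_congr fun p => ?_
    rw [show ((1 / 2 : ℝ)) ^ 2 = 1 / 4 by norm_num]
    congr 1
    have hx := inv_prime p.2
    have hs := EE_summable gg_GH p.2 hx.1.le hx.2
    rw [hs.tsum_eq_zero_add]
    simp only [pow_zero, gg_one, mul_one]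
    have h2 := loc_id hx.1.le hx.2
    simp only [gg_pp p.2]
    exact h2
  rw [hA, show (1 / 4 : ℝ) + 1 = 5 / 4 by norm_num] at hw
  refine hw.congr fun x => ?_
  congr 1
  refine sum_congr rfl fun d hd => ?_
  have h0 : d ≠ 0 := by
    have := (mem_Icc.mp hd).1
    omega
  have hd0 : (d : ℝ) ≠ 0 := by exact_mod_cast h0
  rw [← gg_eq h h0]
  field_simp

end

end Pool.Agent.L7h32.DP
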