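import Pool.Agent.W184.Kar
import Pool.Agent.H306R2.Karamata2

set_option autoImplicit false

/-! One-dimensional Karamata theorem for partial sums. -/

namespace Pool.Agent.L7h32.DP

open Finset Filter Topology MeasureTheory Pool.Agent.H306R2 Pool.Agent.W184

noncomputable section

lemma kar_test {w : ℕ → ℝ} (hw : ∀ n, 0 ≤ w n) (hw0 : w 0 = 0)
    (hsum : ∀ s : ℝ, 0 < s → Summable (fun n : ℕ => w n * (n : ℝ) ^ (-s)))
    {κ A : ℝ} (hκ : 0 < κ) (hA : 0 ≤ A)
    (hlim : ∀ s : ℝ, 0 < s →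
      Tendsto (fun L : ℝ => (∑' n : ℕ, w n * (n : ℝ) ^ (-(s / L))) / L ^ κ) atTop
        (𝓝 (A * s ^ (-κ))))
    (ψ : ℝ → ℝ) (hψ : Continuous ψ) (M : ℝ) (hM : 0 ≤ M) (h0 : ∀ x, M ≤ x → ψ x = 0) :
    (∀ L : ℝ, 0 < L → Summable fun n : ℕ => w n * ψ (Real.log n / L)) ∧
    Tendsto (fun L : ℝ => (∑' n : ℕ, w n * ψ (Real.log n / L)) / L ^ κ) atTop
      (𝓝 (A * ∫ x, gd κ x * ψ x)) := by
  have hφ : Continuous fun u : Fin 1 → ℝ => ψ (u 0) := by fun_prop
  have hφ0 : ∀ u : Fin 1 → ℝ, (∀ i, 0 ≤ u i) → (∃ i, M ≤ u i) → ψ (u 0) = 0 := by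
    rintro u - ⟨i, hi⟩
    have : i = 0 := Subsingleton.elim _ _
    subst this
    exact h0 _ hi
  have H : KH 1 (fun b : Fin 1 → ℕ => w (b 0)) := by
    refine ⟨fun b => hw _, ?_, ?_⟩
    · rintro b ⟨i, hi⟩
      have : i = 0 := Subsingleton.elim _ _
      subst this
      show w (b 0) = 0
      rw [hi, hw0]
    · intro s hs
      refine ((Equiv.funUnique (Fin 1) ℕ).summable_iff (f := fun n : ℕ => w n * (n : ℝ) ^ (-(s 0)))).mpr
        (hsum (s 0) (hs 0)) |>.congr fun b => ?_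
      simp [Function.comp]
  have hk := karamata H κ A hA (fun _ => κ) (fun _ => hκ) (by
    intro s hs
    have h := hlim (s 0) (hs 0)
    simp only [univ_unique, Fin.default_eq_zero, Fin.isValue, prod_singleton]
    refine h.congr fun L => ?_
    congr 1
    exact ((Equiv.funUnique (Fin 1) ℕ).tsum_eq (fun n : ℕ => w n * (n : ℝ) ^ (-(s 0 / L)))).symm)
    (fun u => ψ (u 0)) hφ M hφ0 hM
  have e2 : ∀ L : ℝ, (∑' b : Fin 1 → ℕ, w (b 0) * ψ (pos L b 0)) =
      ∑' n : ℕ, w n * ψ (Real.log n / L) := by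
    intro L
    exact (Equiv.funUnique (Fin 1) ℕ).tsum_eq (fun n : ℕ => w n * ψ (Real.log n / L))
  have e3 : ∫ u : Fin 1 → ℝ, Gd (fun _ => κ) u * ψ (u 0) = ∫ x, gd κ x * ψ x := by
    have := (volume_preserving_funUnique (Fin 1) ℝ).integral_comp
      (MeasurableEquiv.funUnique (Fin 1) ℝ).measurableEmbedding (fun x => gd κ x * ψ x)
    rw [← this]
    refine integral_congr_ae (Eventually.of_forall fun u => ?_)
    simp only [Gd, univ_unique, Fin.default_eq_zero, Fin.isValue, prod_singleton]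
    rfl
  constructor
  · intro L hL
    have hs := tf_summable H (fun u => ψ (u 0)) hφ M hφ0 hM hL
    exact ((Equiv.funUnique (Fin 1) ℕ).summable_iff (f := fun n : ℕ => w n *
      ψ (Real.log n / L))).mp hs
  · rw [e3] at hk
    refine hk.congr fun L => ?_
    rw [← e2 L]

lemma gI_val {κ : ℝ} (hκ : 0 < κ) : gI (√κ) 0 = 1 / Real.Gamma (κ + 1) := by
  unfold gI
  rw [Real.sq_sqrt hκ.le]
  have hG := (Real.Gamma_pos_of_pos hκ).ne'
  have h1 : (∫ x in (0:ℝ)..1, x ^ (κ - 1) / Real.Gamma κ * Real.exp (-(2 * 0 * x))) =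
      ∫ x in (0:ℝ)..1, (Real.Gamma κ)⁻¹ * x ^ (κ - 1) := by
    congr 1
    funext x
    simp only [mul_zero, zero_mul, neg_zero, Real.exp_zero, mul_one]
    ring
  rw [h1, intervalIntegral.integral_const_mul, integral_rpow (Or.inl (by linarith)),
    Real.Gamma_add_one hκ.ne']
  simp only [sub_add_cancel, Real.one_rpow]
  rw [Real.zero_rpow hκ.ne']
  field_simp
  ring

theorem kar_sum {w : ℕ → ℝ} (hw : ∀ n, 0 ≤ w n) (hw0 : w 0 = 0)
    (hsum : ∀ s : ℝ, 0 < s → Summable (fun n : ℕ => w n * (n : ℝ) ^ (-s)))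
    {κ A : ℝ} (hκ : 0 < κ) (hA : 0 < A)
    (hlim : ∀ s : ℝ, 0 < s →
      Tendsto (fun L : ℝ => (∑' n : ℕ, w n * (n : ℝ) ^ (-(s / L))) / L ^ κ) atTop
        (𝓝 (A * s ^ (-κ)))) :
    Tendsto (fun x : ℝ => (∑ n ∈ Icc 1 ⌊Real.exp x⌋₊, w n) / x ^ κ) atTop
      (𝓝 (A / Real.Gamma (κ + 1))) := by
  have hsq : 0 < √κ := Real.sqrt_pos.mpr hκ
  have hsq2 : √κ ^ 2 = κ := Real.sq_sqrt hκ.le
  have hval : A / Real.Gamma (κ + 1) = A * gI (√κ) 0 := by rw [gI_val hκ]; ring
  rw [hval, tendsto_order]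
  have hfloor : ∀ x : ℝ, ∀ n : ℕ, 1 ≤ n → (n ∈ Icc 1 ⌊Real.exp x⌋₊ ↔ Real.log n ≤ x) := by
    intro x n hn
    have hn0 : (0:ℝ) < n := by exact_mod_cast hn
    rw [mem_Icc, Nat.le_floor_iff (Real.exp_pos x).le, Real.log_le_iff_le_exp hn0]
    exact ⟨fun h => h.2, fun h => ⟨hn, h⟩⟩
  constructor
  · intro c hc
    have h1 := (tendsto_endpoint (κ := √κ) (δ := 0) hsq (fun η => 1 - 2 * η) (by
      have : Tendsto (fun η : ℝ => 1 - 2 * η) (𝓝 0) (𝓝 (1 - 2 * 0)) := by
        exact (continuous_const.sub (continuous_const.mul continuous_id)).tendsto 0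
      rw [mul_zero, sub_zero] at this
      exact this.mono_left nhdsWithin_le_nhds)).const_mul A
    obtain ⟨η, hη1, hη, hη2⟩ := ((h1.eventually_const_lt hc).and
      (Ioo_mem_nhdsGT (show (0:ℝ) < 1/4 by norm_num))).exists
    have hη0 : 0 < η := hη
    have hb := (int_cu (δ := 0) (β := 1 - 2 * η) (η := η) hsq (by linarith) hη0).1
    obtain ⟨hs, hk⟩ := kar_test hw hw0 hsum hκ hA.le hlim
      (fun x => Real.exp (-(2 * 0 * x)) * cu (1 - 2 * η) η x)
      (by have := cu_cont (1 - 2 * η) η; fun_prop) 1 zero_le_one (by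
        intro x hx
        rw [cu_zero hη0 (by linarith), mul_zero])
    have hlt : c < A * ∫ x, gd κ x * (Real.exp (-(2 * 0 * x)) * cu (1 - 2 * η) η x) := by
      rw [hsq2] at hb hη1
      exact lt_of_lt_of_le hη1 (mul_le_mul_of_nonneg_left hb hA.le)
    filter_upwards [hk.eventually_const_lt hlt, eventually_gt_atTop 0] with x hx hx0
    refine lt_of_lt_of_le hx ?_
    refine div_le_div_of_nonneg_right ?_ (by positivity)
    have hz : ∀ n : ℕ, n ∉ Icc 1 ⌊Real.exp x⌋₊ → w n * (Real.exp (-(2 * 0 * (Real.log n / x))) *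
        cu (1 - 2 * η) η (Real.log n / x)) = 0 := by
      intro n hn
      rcases Nat.eq_zero_or_pos n with h | h
      · subst h; rw [hw0, zero_mul]
      · rw [hfloor x n h] at hn
        push Not at hn
        rw [cu_zero hη0, mul_zero, mul_zero]
        rw [le_div_iff₀ hx0]
        nlinarith
    rw [tsum_eq_sum hz]
    refine sum_le_sum fun n hn => ?_
    refine mul_le_of_le_one_right (hw n) ?_
    simp only [mul_zero, zero_mul, neg_zero, Real.exp_zero, one_mul]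
    exact cu_le_one _ _ _
  · intro c hc
    have h1 := (tendsto_endpoint (κ := √κ) (δ := 0) hsq (fun η => 1 + η) (by
      have : Tendsto (fun η : ℝ => 1 + η) (𝓝 0) (𝓝 (1 + 0)) := by
        exact (continuous_const.add continuous_id).tendsto 0
      rw [add_zero] at this
      exact this.mono_left nhdsWithin_le_nhds)).const_mul A
    obtain ⟨η, hη1, hη, hη2⟩ := ((h1.eventually_lt_const hc).and
      (Ioo_mem_nhdsGT (show (0:ℝ) < 1/4 by norm_num))).exists
    have hη0 : 0 < η := hη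
    have hb := (int_cu (δ := 0) (β := 1) (η := η) hsq zero_le_one hη0).2
    obtain ⟨hs, hk⟩ := kar_test hw hw0 hsum hκ hA.le hlim
      (fun x => Real.exp (-(2 * 0 * x)) * cu 1 η x)
      (by have := cu_cont 1 η; fun_prop) (1 + η) (by linarith) (by
        intro x hx
        rw [cu_zero hη0 hx, mul_zero])
    have hlt : A * ∫ x, gd κ x * (Real.exp (-(2 * 0 * x)) * cu 1 η x) < c := by
      rw [hsq2] at hb hη1
      exact lt_of_le_of_lt (mul_le_mul_of_nonneg_left hb hA.le) hη1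
    filter_upwards [hk.eventually_lt_const hlt, eventually_gt_atTop 0] with x hx hx0
    refine lt_of_le_of_lt ?_ hx
    refine div_le_div_of_nonneg_right ?_ (by positivity)
    have hle : ∑ n ∈ Icc 1 ⌊Real.exp x⌋₊, w n ≤
        ∑ n ∈ Icc 1 ⌊Real.exp x⌋₊, w n * (Real.exp (-(2 * 0 * (Real.log n / x))) *
          cu 1 η (Real.log n / x)) := by
      refine sum_le_sum fun n hn => ?_
      have hn1 : 1 ≤ n := (mem_Icc.mp hn).1
      rw [hfloor x n hn1] at hn
      rw [cu_one hη0 (by rw [div_le_one hx0]; exact hn)]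
      simp
    refine hle.trans ?_
    refine Summable.sum_le_tsum _ (fun n _ => ?_) (hs x hx0)
    exact mul_nonneg (hw n) (mul_nonneg (Real.exp_pos _).le (cu_nonneg _ _ _))

end

end Pool.Agent.L7h32.DP
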