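import Pool.Agent.L7h11.DP.Stm
import Pool.Agent.H306R2.Arith

set_option autoImplicit false

/-! S_LD: local density of `d_{1/2}`. -/

namespace Pool.Agent.L7h32.DP

open Finset Filter Topology MeasureTheory
open Pool.Agent.H306R2

noncomputable section

/-- `d_{1/2}` -/
abbrev dh (n : ℕ) : ℝ := dv (1 / 2) n

lemma dh_nonneg (n : ℕ) : 0 ≤ dh n := dv_nonneg (by norm_num) n

/-- pairs with product in a set: reordering -/
lemma pairs (F : ℕ → ℕ → ℝ) (I : Finset ℕ) (N : ℕ) (hI : I ⊆ Icc 1 N) :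
    ∑ n ∈ I, ∑ x ∈ n.divisorsAntidiagonal, F x.1 x.2 =
      ∑ k ∈ Icc 1 N, ∑ l ∈ (Icc 1 N).filter (fun l => k * l ∈ I), F k l := by
  have h1 : ∑ k ∈ Icc 1 N, ∑ l ∈ (Icc 1 N).filter (fun l => k * l ∈ I), F k l =
      ∑ x ∈ (Icc 1 N ×ˢ Icc 1 N).filter (fun x : ℕ × ℕ => x.1 * x.2 ∈ I), F x.1 x.2 := by
    rw [sum_filter, sum_product]
    refine sum_congr rfl fun k _ => ?_
    rw [sum_filter]
  rw [h1, ← sum_fiberwise_of_maps_to (g := fun x : ℕ × ℕ => x.1 * x.2) (t := I)
    (fun x hx => (mem_filter.mp hx).2)]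
  refine sum_congr rfl fun n hn => ?_
  refine sum_congr ?_ fun _ _ => rfl
  have hn' := mem_Icc.mp (hI hn)
  ext x
  simp only [Nat.mem_divisorsAntidiagonal, mem_filter, mem_product, mem_Icc]
  constructor
  · rintro ⟨h2, h3⟩
    have h4 : x.1 ≠ 0 := by rintro h; rw [h, zero_mul] at h2; omega
    have h5 : x.2 ≠ 0 := by rintro h; rw [h, mul_zero] at h2; omega
    have h6 : x.1 ≤ n := by
      rw [← h2]; exact Nat.le_mul_of_pos_right _ (Nat.pos_of_ne_zero h5)
    have h7 : x.2 ≤ n := by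
      rw [← h2]; exact Nat.le_mul_of_pos_left _ (Nat.pos_of_ne_zero h4)
    refine ⟨⟨⟨⟨by omega, by omega⟩, by omega, by omega⟩, by rw [h2]; exact hn⟩, h2⟩
  · rintro ⟨⟨-, -⟩, h2⟩
    exact ⟨h2, by omega⟩

/-- `∑_{n ≤ N} d_{1/2}(n)/n` -/
def Eh (N : ℕ) : ℝ := ∑ n ∈ Icc 1 N, dh n / n

lemma dh_conv {n : ℕ} (hn : n ≠ 0) : ∑ x ∈ n.divisorsAntidiagonal, dh x.1 * dh x.2 = 1 := by
  have h := congrArg (fun f : ArithmeticFunction ℝ => f n) (dA_mul (1 / 2) (1 / 2))
  simp only [ArithmeticFunction.mul_apply, dA_apply] at h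
  rw [h, show (1 / 2 : ℝ) + 1 / 2 = 1 by norm_num]
  have h2 := congrArg (fun f : ArithmeticFunction ℝ => f n) dA_one
  simp only [dA_apply] at h2
  rw [h2]
  simp [zR, hn]

lemma harm (N : ℕ) : ∑ n ∈ Icc 1 N, (1 : ℝ) / n ≤ 1 + Real.log N := by
  have := harmonic_le_one_add_log N
  rw [harmonic_eq_sum_Icc] at this
  push_cast at this
  simpa [one_div] using this

lemma Eh_sq (N : ℕ) (hN : 1 ≤ N) : Eh N ^ 2 ≤ 1 + 2 * Real.log N := by
  have h1 : ∑ n ∈ Icc 1 (N * N), ∑ x ∈ n.divisorsAntidiagonal, (dh x.1 / x.1) * (dh x.2 / x.2) =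
      ∑ n ∈ Icc 1 (N * N), (1 : ℝ) / n := by
    refine sum_congr rfl fun n hn => ?_
    have hn0 : n ≠ 0 := by
      have := (mem_Icc.mp hn).1
      omega
    rw [← dh_conv hn0, sum_div]
    refine sum_congr rfl fun x hx => ?_
    have h2 := (Nat.mem_divisorsAntidiagonal.mp hx).1
    rw [← h2]
    push_cast
    rw [div_mul_div_comm]
  have h2 := pairs (fun k l => (dh k / k) * (dh l / l)) (Icc 1 (N * N)) (N * N) (le_refl _)
  have hNN : N ≤ N * N := Nat.le_mul_of_pos_left _ hN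
  have h3 : Eh N ^ 2 ≤ ∑ k ∈ Icc 1 (N * N), ∑ l ∈ (Icc 1 (N * N)).filter
      (fun l => k * l ∈ Icc 1 (N * N)), (dh k / k) * (dh l / l) := by
    have hnn : ∀ k l : ℕ, 0 ≤ (dh k / k) * (dh l / l) := fun k l => by
      have := dh_nonneg k
      have := dh_nonneg l
      positivity
    unfold Eh
    rw [sq, sum_mul_sum]
    refine le_trans ?_ (sum_le_sum_of_subset_of_nonneg (s := Icc 1 N) (Icc_subset_Icc_right hNN)
      fun k _ _ => sum_nonneg fun l _ => hnn k l)
    refine sum_le_sum fun k hk => ?_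
    refine sum_le_sum_of_subset_of_nonneg (fun l hl => ?_) fun l _ _ => hnn k l
    rw [mem_Icc] at hk hl
    rw [mem_filter, mem_Icc, mem_Icc]
    refine ⟨⟨hl.1, hl.2.trans hNN⟩, Nat.mul_pos hk.1 hl.1, Nat.mul_le_mul hk.2 hl.2⟩
  have h4 := harm (N * N)
  have hN0 : (N : ℝ) ≠ 0 := by
    have : N ≠ 0 := by omega
    exact_mod_cast this
  push_cast at h4
  rw [Real.log_mul hN0 hN0] at h4
  rw [← h2, h1] at h3
  linarith

/-- `2 d_{1/2} log = d_{1/2} * Λ` -/
lemma dh_log (n : ℕ) : 2 * (dh n * Real.log n) =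
    ∑ x ∈ n.divisorsAntidiagonal, dh x.1 * ArithmeticFunction.vonMangoldt x.2 := by
  set D : ArithmeticFunction ℝ := ⟨fun n => dh n * Real.log n, by simp⟩ with hD
  set h : ArithmeticFunction ℝ := dA (1 / 2) with hh
  have e1 : h * h = zR := by rw [hh, dA_mul, show (1 / 2 : ℝ) + 1 / 2 = 1 by norm_num, dA_one]
  have e2 : h * D + D * h = ArithmeticFunction.vonMangoldt * (h * h) := by
    rw [e1]
    have e3 : ArithmeticFunction.vonMangoldt * zR = ArithmeticFunction.log :=
      ArithmeticFunction.vonMangoldt_mul_zeta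
    rw [e3]
    ext n
    rw [ArithmeticFunction.add_apply, ArithmeticFunction.mul_apply, ArithmeticFunction.mul_apply,
      ← sum_add_distrib, ArithmeticFunction.log_apply]
    rcases Nat.eq_zero_or_pos n with h0 | h0
    · subst h0; simp
    have h5 : ∀ x ∈ n.divisorsAntidiagonal, h x.1 * D x.2 + D x.1 * h x.2 =
        (dh x.1 * dh x.2) * Real.log n := by
      intro x hx
      obtain ⟨h2, h3⟩ := Nat.mem_divisorsAntidiagonal.mp hx
      have h6 : (x.1 : ℝ) ≠ 0 := by
        have : x.1 ≠ 0 := by rintro h; rw [h, zero_mul] at h2; omega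
        exact_mod_cast this
      have h7 : (x.2 : ℝ) ≠ 0 := by
        have : x.2 ≠ 0 := by rintro h; rw [h, mul_zero] at h2; omega
        exact_mod_cast this
      rw [← h2]
      push_cast
      rw [Real.log_mul h6 h7]
      show dh x.1 * (dh x.2 * Real.log x.2) + dh x.1 * Real.log x.1 * dh x.2 = _
      ring
    rw [sum_congr rfl h5, ← sum_mul, dh_conv h0.ne', one_mul]
  have e4 : h * (D + D) = h * (h * ArithmeticFunction.vonMangoldt) := by
    calc h * (D + D) = h * D + D * h := by ring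
      _ = ArithmeticFunction.vonMangoldt * (h * h) := e2
      _ = _ := by ring
  have e5 : D + D = h * ArithmeticFunction.vonMangoldt := by
    have e6 : dA (-(1 / 2)) * h = 1 := by
      rw [hh, dA_mul, show -(1 / 2 : ℝ) + 1 / 2 = 0 by norm_num, dA_zero]
    calc D + D = (dA (-(1 / 2)) * h) * (D + D) := by rw [e6, one_mul]
      _ = dA (-(1 / 2)) * (h * (D + D)) := by ring
      _ = dA (-(1 / 2)) * (h * (h * ArithmeticFunction.vonMangoldt)) := by rw [e4]
      _ = (dA (-(1 / 2)) * h) * (h * ArithmeticFunction.vonMangoldt) := by ring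
      _ = _ := by rw [e6, one_mul]
  have e7 := congrArg (fun f : ArithmeticFunction ℝ => f n) e5
  simp only [ArithmeticFunction.add_apply, ArithmeticFunction.mul_apply] at e7
  rw [show 2 * (dh n * Real.log n) = D n + D n by
    show 2 * (dh n * Real.log n) = dh n * Real.log n + dh n * Real.log n
    ring]
  exact e7

/-- Chebyshev -/
lemma psi_bd {y : ℝ} (hy : 0 ≤ y) :
    ∑ l ∈ Icc 1 ⌊y⌋₊, ArithmeticFunction.vonMangoldt l ≤ 6 * y := by
  have h := Chebyshev.psi_le_const_mul_self hy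
  have h4 : Real.log 4 ≤ 2 := by
    have : (4 : ℝ) = 2 * 2 := by norm_num
    rw [this, Real.log_mul (by norm_num) (by norm_num)]
    have := Real.log_two_lt_d9
    linarith
  unfold Chebyshev.psi at h
  have h5 : Icc 1 ⌊y⌋₊ = Ioc 0 ⌊y⌋₊ := by
    ext n
    rw [mem_Icc, mem_Ioc]
    omega
  rw [h5]
  refine h.trans ?_
  nlinarith

/-- the range -/
def Ij (j M : ℕ) : Finset ℕ :=
  (Icc 1 M).filter (fun m : ℕ => (j : ℝ) ≤ Real.log m ∧ Real.log m < j + 1)

lemma Ij_sub (j M : ℕ) : Ij j M ⊆ Icc 1 ⌊Real.exp (j + 1)⌋₊ := by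
  intro m hm
  unfold Ij at hm
  rw [mem_filter, mem_Icc] at hm
  have hm0 : (0 : ℝ) < m := by exact_mod_cast hm.1.1
  rw [mem_Icc]
  refine ⟨hm.1.1, Nat.le_floor ?_⟩
  rw [← Real.log_le_iff_le_exp hm0]
  exact hm.2.2.le

lemma inner (j M k : ℕ) (hk : 1 ≤ k) (N : ℕ) :
    ∑ l ∈ (Icc 1 N).filter (fun l => k * l ∈ Ij j M), ArithmeticFunction.vonMangoldt l / l ≤ 18 := by
  have hk0 : (0 : ℝ) < k := by exact_mod_cast hk
  have hj := Real.exp_pos (j : ℝ)
  have h1 : ∀ l ∈ (Icc 1 N).filter (fun l => k * l ∈ Ij j M),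
      l ∈ Icc 1 ⌊Real.exp (j + 1) / k⌋₊ ∧ (1 : ℝ) / l ≤ k / Real.exp j := by
    intro l hl
    unfold Ij at hl
    rw [mem_filter, mem_filter, mem_Icc, mem_Icc] at hl
    obtain ⟨⟨h1, -⟩, -, h2, h3⟩ := hl
    have hl0 : (0 : ℝ) < l := by exact_mod_cast h1
    have hkl : (0 : ℝ) < ((k * l : ℕ) : ℝ) := by push_cast; positivity
    rw [Real.le_log_iff_exp_le hkl] at h2
    rw [Real.log_lt_iff_lt_exp hkl] at h3
    push_cast at h2 h3
    constructor
    · rw [mem_Icc]
      refine ⟨h1, Nat.le_floor ?_⟩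
      rw [le_div_iff₀ hk0, mul_comm]
      exact h3.le
    · rw [div_le_div_iff₀ hl0 hj, one_mul]
      exact h2
  calc ∑ l ∈ (Icc 1 N).filter (fun l => k * l ∈ Ij j M), ArithmeticFunction.vonMangoldt l / l
      ≤ ∑ l ∈ (Icc 1 N).filter (fun l => k * l ∈ Ij j M),
          ArithmeticFunction.vonMangoldt l * (k / Real.exp j) := by
        refine sum_le_sum fun l hl => ?_
        rw [div_eq_mul_one_div]
        exact mul_le_mul_of_nonneg_left (h1 l hl).2 ArithmeticFunction.vonMangoldt_nonneg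
    _ ≤ ∑ l ∈ Icc 1 ⌊Real.exp (j + 1) / k⌋₊,
          ArithmeticFunction.vonMangoldt l * (k / Real.exp j) := by
        refine sum_le_sum_of_subset_of_nonneg (fun l hl => (h1 l hl).1) fun l _ _ => ?_
        exact mul_nonneg ArithmeticFunction.vonMangoldt_nonneg (by positivity)
    _ ≤ 6 * (Real.exp (j + 1) / k) * (k / Real.exp j) := by
        rw [← sum_mul]
        exact mul_le_mul_of_nonneg_right (psi_bd (by positivity)) (by positivity)
    _ = 6 * Real.exp 1 := by
        rw [Real.exp_add]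
        field_simp
    _ ≤ 18 := by
        have := Real.exp_one_lt_d9
        linarith

theorem s_ld : Pool.Agent.L7h11.DP.S_LD := by
  refine ⟨20, by norm_num, fun j M => ?_⟩
  change ∑ m ∈ Ij j M, dh m / m ≤ 20 / √(1 + j)
  set N := ⌊Real.exp ((j : ℝ) + 1)⌋₊ with hN
  have hN1 : 1 ≤ N := by
    rw [hN]
    exact Nat.le_floor (by push_cast; exact Real.one_le_exp (by positivity))
  have hj0 : (0 : ℝ) ≤ j := Nat.cast_nonneg j
  have hN0 : (0 : ℝ) < N := by exact_mod_cast hN1
  have hE0 : 0 ≤ Eh N := by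
    unfold Eh
    exact sum_nonneg fun n _ => by have := dh_nonneg n; positivity
  have hE : Eh N ≤ √(2 * j + 3) := by
    refine Real.le_sqrt_of_sq_le ((Eh_sq N hN1).trans ?_)
    have : Real.log N ≤ j + 1 := by
      rw [Real.log_le_iff_le_exp hN0]
      exact Nat.floor_le (Real.exp_pos _).le
    linarith
  set S := ∑ m ∈ Ij j M, dh m / m with hS
  have h1 : S ≤ Eh N := by
    rw [hS]
    unfold Eh
    refine sum_le_sum_of_subset_of_nonneg (Ij_sub j M) fun n _ _ => ?_
    have := dh_nonneg n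
    positivity
  have h2 : (j : ℝ) * S ≤ 9 * Eh N := by
    calc (j : ℝ) * S ≤ ∑ m ∈ Ij j M, dh m * Real.log m / m := by
          rw [hS, mul_sum]
          refine sum_le_sum fun m hm => ?_
          unfold Ij at hm
          have h3 := (mem_filter.mp hm).2.1
          have h4 := dh_nonneg m
          rw [mul_div_assoc, mul_comm (dh m) (Real.log m / m), div_mul_eq_mul_div, ← mul_div_assoc]
          gcongr
      _ = (1 / 2) * ∑ m ∈ Ij j M, ∑ x ∈ m.divisorsAntidiagonal,
            (dh x.1 / x.1) * (ArithmeticFunction.vonMangoldt x.2 / x.2) := by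
          rw [mul_sum]
          refine sum_congr rfl fun m _ => ?_
          have h5 := dh_log m
          have h6 : dh m * Real.log m = (1 / 2) *
              ∑ x ∈ m.divisorsAntidiagonal, dh x.1 * ArithmeticFunction.vonMangoldt x.2 := by
            rw [← h5]; ring
          rw [h6, mul_div_assoc, sum_div]
          congr 1
          refine sum_congr rfl fun x hx => ?_
          rw [← (Nat.mem_divisorsAntidiagonal.mp hx).1]
          push_cast
          rw [div_mul_div_comm]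
      _ ≤ (1 / 2) * ∑ k ∈ Icc 1 N, (dh k / k) * 18 := by
          refine mul_le_mul_of_nonneg_left ?_ (by norm_num)
          rw [pairs (fun k l => (dh k / k) * (ArithmeticFunction.vonMangoldt l / l)) (Ij j M) N
            (Ij_sub j M)]
          refine sum_le_sum fun k hk => ?_
          rw [← mul_sum]
          refine mul_le_mul_of_nonneg_left (inner j M k (mem_Icc.mp hk).1 N) ?_
          have := dh_nonneg k
          positivity
      _ = 9 * Eh N := by
          rw [← sum_mul]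
          unfold Eh
          ring
  have h3 : (1 + (j : ℝ)) * S ≤ 10 * √(2 * j + 3) := by nlinarith
  have h4 : √(2 * (j : ℝ) + 3) ≤ 2 * √(1 + j) := by
    rw [Real.sqrt_le_left (by positivity), mul_pow, Real.sq_sqrt (by positivity)]
    linarith
  have h5 : 0 < √(1 + (j : ℝ)) := Real.sqrt_pos.mpr (by positivity)
  rw [le_div_iff₀ h5]
  have h6 : √(1 + (j : ℝ)) * √(1 + (j : ℝ)) = 1 + j := Real.mul_self_sqrt (by positivity)
  have h7 : √(1 + (j : ℝ)) * (S * √(1 + (j : ℝ))) ≤ √(1 + (j : ℝ)) * 20 := by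
    calc √(1 + (j : ℝ)) * (S * √(1 + (j : ℝ))) = (√(1 + (j : ℝ)) * √(1 + (j : ℝ))) * S := by ring
      _ = (1 + j) * S := by rw [h6]
      _ ≤ _ := by linarith
  exact le_of_mul_le_mul_left h7 h5

end

end Pool.Agent.L7h32.DP
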