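import Pool.Agent.L7h32.DP.Wir

set_option autoImplicit false

/-! Local series of the coefficients of `(1-x)^(1/2)`. -/

namespace Pool.Agent.L7h32.DP

open Finset Filter Topology
open Pool.Agent.H306R2

noncomputable section

/-- coefficients of `(1-x)^(1/2)` -/
abbrev lm (n : ℕ) : ℝ := lc (-(1 / 2)) n

/-- coefficients of `(1-x)^(-1/2)` -/
abbrev lh (n : ℕ) : ℝ := lc (1 / 2) n

lemma lm_ne (n : ℕ) : lm n ≠ 0 := by
  show lc (-(1 / 2)) n ≠ 0
  unfold lc
  refine prod_ne_zero_iff.mpr fun i _ => div_ne_zero ?_ (by positivity)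
  intro h
  have h2 : (2 * i : ℝ) = 1 := by linarith
  have h3 : 2 * i = 1 := by exact_mod_cast h2
  omega

lemma lm_abs (n : ℕ) : |lm n| ≤ 1 := by
  show |lc (-(1 / 2)) n| ≤ 1
  unfold lc
  rw [abs_prod]
  refine prod_le_one (fun i _ => abs_nonneg _) fun i _ => ?_
  have hi : (0 : ℝ) ≤ i := Nat.cast_nonneg i
  rw [abs_div, abs_of_pos (by positivity : (0 : ℝ) < (i : ℝ) + 1), div_le_one (by positivity), abs_le]
  constructor <;> linarith

lemma lh_nonneg (n : ℕ) : 0 ≤ lh n := lc_nonneg (by norm_num) n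

lemma lh_le (n : ℕ) : lh n ≤ 1 := by
  have := lc_mono (α := 1 / 2) (β := 1) (by norm_num) (by norm_num) n
  rwa [lc_one_left] at this

lemma sum_lm (n : ℕ) : ∑ i ∈ range (n + 1), lm i = lh n := by
  have h := lc_conv (-(1 / 2)) 1 n
  simp only [lc_one_left, mul_one] at h
  rw [show (-(1 / 2) : ℝ) + 1 = 1 / 2 by norm_num] at h
  show ∑ i ∈ range (n + 1), lc (-(1 / 2)) i = lc (1 / 2) n
  rw [← h]
  exact (Finset.Nat.sum_antidiagonal_eq_sum_range_succ (fun i _ => lc (-(1 / 2)) i) n).symm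

/-- shifted series -/
def Fa (x : ℝ) (a : ℕ) : ℝ := ∑' j : ℕ, lm (a + j) * x ^ j

variable {x : ℝ}

lemma geo (hx : 0 ≤ x) (hx2 : x ≤ 1 / 2) : Summable (fun n : ℕ => x ^ n) :=
  summable_geometric_of_lt_one hx (by linarith)

lemma Fa_norm (hx : 0 ≤ x) (hx2 : x ≤ 1 / 2) (a : ℕ) :
    Summable (fun j : ℕ => ‖lm (a + j) * x ^ j‖) := by
  refine Summable.of_nonneg_of_le (fun _ => norm_nonneg _) (fun j => ?_) (geo hx hx2)
  rw [norm_mul, norm_pow, Real.norm_of_nonneg hx, Real.norm_eq_abs]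
  exact mul_le_of_le_one_left (pow_nonneg hx j) (lm_abs _)

lemma lh_norm (hx : 0 ≤ x) (hx2 : x ≤ 1 / 2) :
    Summable (fun j : ℕ => ‖lh j * x ^ j‖) := by
  refine Summable.of_nonneg_of_le (fun _ => norm_nonneg _) (fun j => ?_) (geo hx hx2)
  rw [norm_mul, norm_pow, Real.norm_of_nonneg hx, Real.norm_of_nonneg (lh_nonneg j)]
  exact mul_le_of_le_one_left (pow_nonneg hx j) (lh_le _)

lemma Fa_summable (hx : 0 ≤ x) (hx2 : x ≤ 1 / 2) (a : ℕ) :
    Summable (fun j : ℕ => lm (a + j) * x ^ j) := (Fa_norm hx hx2 a).of_norm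

lemma Fa_abs (hx : 0 ≤ x) (hx2 : x ≤ 1 / 2) (a : ℕ) : |Fa x a| ≤ 2 := by
  unfold Fa
  rw [← Real.norm_eq_abs]
  refine (norm_tsum_le_tsum_norm (Fa_norm hx hx2 a)).trans ?_
  have h1 : ∑' j : ℕ, ‖lm (a + j) * x ^ j‖ ≤ ∑' j : ℕ, x ^ j := by
    refine (Fa_norm hx hx2 a).tsum_le_tsum (fun j => ?_) (geo hx hx2)
    rw [norm_mul, norm_pow, Real.norm_of_nonneg hx, Real.norm_eq_abs]
    exact mul_le_of_le_one_left (pow_nonneg hx j) (lm_abs _)
  rw [tsum_geometric_of_lt_one hx (by linarith)] at h1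
  refine h1.trans ?_
  rw [inv_le_comm₀ (by linarith) (by norm_num)]
  linarith

lemma Fa_succ (hx : 0 ≤ x) (hx2 : x ≤ 1 / 2) (a : ℕ) : Fa x a = lm a + x * Fa x (a + 1) := by
  unfold Fa
  rw [(Fa_summable hx hx2 a).tsum_eq_zero_add, ← tsum_mul_left]
  simp only [add_zero, pow_zero, mul_one]
  congr 1
  refine tsum_congr fun j => ?_
  rw [show a + (j + 1) = a + 1 + j by ring, pow_succ]
  ring

lemma lcm1 (n : ℕ) : lc (-1) n = if n = 0 then 1 else if n = 1 then -1 else 0 := by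
  rcases n with _ | _ | n
  · simp [lc_zero]
  · simp [lc_one]
  · rw [if_neg (by omega), if_neg (by omega)]
    unfold lc
    refine prod_eq_zero (i := 1) (mem_range.mpr (by omega)) ?_
    simp

lemma Fa_zero_sq (hx : 0 ≤ x) (hx2 : x ≤ 1 / 2) : Fa x 0 ^ 2 = 1 - x := by
  have h0 := Fa_norm hx hx2 0
  simp only [zero_add] at h0
  unfold Fa
  simp only [zero_add]
  rw [sq, tsum_mul_tsum_eq_tsum_sum_antidiagonal_of_summable_norm h0 h0]
  have h1 : ∀ n : ℕ, ∑ kl ∈ antidiagonal n, lm kl.1 * x ^ kl.1 * (lm kl.2 * x ^ kl.2) =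
      lc (-1) n * x ^ n := by
    intro n
    rw [show (-1 : ℝ) = -(1 / 2) + -(1 / 2) by norm_num, ← lc_conv, sum_mul]
    refine sum_congr rfl fun kl hkl => ?_
    rw [HasAntidiagonal.mem_antidiagonal] at hkl
    rw [← hkl, pow_add]
    ring
  simp only [h1]
  rw [tsum_eq_sum (s := range 2)]
  · simp [sum_range_succ, lcm1]
    ring
  · intro n hn
    rw [mem_range] at hn
    rw [lcm1, if_neg (by omega), if_neg (by omega), zero_mul]

lemma lh_sq (hx : 0 ≤ x) (hx2 : x ≤ 1 / 2) : (∑' j : ℕ, lh j * x ^ j) ^ 2 = (1 - x)⁻¹ := by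
  have h0 := lh_norm hx hx2
  rw [sq, tsum_mul_tsum_eq_tsum_sum_antidiagonal_of_summable_norm h0 h0]
  have h1 : ∀ n : ℕ, ∑ kl ∈ antidiagonal n, lh kl.1 * x ^ kl.1 * (lh kl.2 * x ^ kl.2) = x ^ n := by
    intro n
    have h2 := lc_conv (1 / 2) (1 / 2) n
    rw [show (1 / 2 : ℝ) + 1 / 2 = 1 by norm_num, lc_one_left] at h2
    calc _ = ∑ kl ∈ antidiagonal n, (lh kl.1 * lh kl.2) * x ^ n := by
          refine sum_congr rfl fun kl hkl => ?_
          rw [HasAntidiagonal.mem_antidiagonal] at hkl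
          rw [← hkl, pow_add]
          ring
      _ = x ^ n := by rw [← sum_mul, h2, one_mul]
  simp only [h1]
  exact tsum_geometric_of_lt_one hx (by linarith)

/-- local identity -/
lemma loc_id (hx : 0 ≤ x) (hx2 : x ≤ 1 / 2) :
    1 + ∑' a : ℕ, Fa x (a + 1) ^ 2 * x ^ (a + 1) = ∑' n : ℕ, lh n ^ 2 * x ^ n := by
  have hF : Summable (fun a : ℕ => Fa x a ^ 2 * x ^ a) := by
    refine Summable.of_nonneg_of_le (fun a => by positivity) (fun a => ?_) ((geo hx hx2).mul_left 4)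
    refine mul_le_mul_of_nonneg_right ?_ (pow_nonneg hx a)
    have := Fa_abs hx hx2 a
    rw [abs_le] at this
    nlinarith
  have hL : Summable (fun a : ℕ => lh a ^ 2 * x ^ a) := by
    refine Summable.of_nonneg_of_le (fun a => by positivity) (fun a => ?_) (geo hx hx2)
    refine mul_le_of_le_one_left (pow_nonneg hx a) ?_
    exact pow_le_one₀ (lh_nonneg a) (lh_le a)
  have hx1 : (1 - x) ≠ 0 := by
    intro h
    linarith
  -- partial sums `c_{a-1}`
  set c : ℕ → ℝ := fun a => ∑ i ∈ range a, lm i with hc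
  have hcs : ∀ a, c (a + 1) = lh a := sum_lm
  have hcr : ∀ a, c (a + 1) = c a + lm a := fun a => by rw [hc]; exact sum_range_succ _ _
  have hcb : ∀ a, |c a| ≤ 1 := by
    intro a
    rcases a with _ | a
    · simp [hc]
    · rw [hcs, abs_of_nonneg (lh_nonneg a)]; exact lh_le a
  set T : ℕ → ℝ := fun a => -(1 / (1 - x)) * x ^ a * (x * Fa x a ^ 2 + 2 * Fa x a * c a + c a ^ 2)
    with hT
  have hd : ∀ a, Fa x a ^ 2 * x ^ a - lh a ^ 2 * x ^ a = T a - T (a + 1) := by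
    intro a
    have e1 := Fa_succ hx hx2 a
    simp only [hT]
    rw [← hcs, hcr, pow_succ, e1]
    field_simp
    ring
  have hTlim : Tendsto T atTop (𝓝 0) := by
    have h1 : Tendsto (fun a : ℕ => (1 / (1 - x) * 9) * x ^ a) atTop (𝓝 0) := by
      have := (tendsto_pow_atTop_nhds_zero_of_lt_one hx (by linarith : x < 1)).const_mul
        (1 / (1 - x) * 9)
      rwa [mul_zero] at this
    refine squeeze_zero_norm (fun a => ?_) h1
    have h2 := Fa_abs hx hx2 a
    have h3 := hcb a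
    have h4 : |x * Fa x a ^ 2 + 2 * Fa x a * c a + c a ^ 2| ≤ 9 := by
      rw [abs_le] at h2 h3 ⊢
      have h5 : Fa x a ^ 2 ≤ 4 := by nlinarith
      have h6 : c a ^ 2 ≤ 1 := by nlinarith
      have h7 : 0 ≤ Fa x a ^ 2 := sq_nonneg _
      have h8 : |Fa x a * c a| ≤ 2 := by
        rw [abs_mul]
        calc |Fa x a| * |c a| ≤ 2 * 1 :=
              mul_le_mul (Fa_abs hx hx2 a) (hcb a) (abs_nonneg _) (by norm_num)
          _ = 2 := by norm_num
      rw [abs_le] at h8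
      constructor <;> nlinarith
    simp only [hT]
    rw [Real.norm_eq_abs, abs_mul, abs_mul, abs_neg, abs_of_nonneg (pow_nonneg hx a),
      abs_of_nonneg (by rw [one_div, inv_nonneg]; linarith : 0 ≤ 1 / (1 - x))]
    have h5 : 0 ≤ 1 / (1 - x) * x ^ a := by
      have : 0 ≤ 1 / (1 - x) := by rw [one_div, inv_nonneg]; linarith
      positivity
    calc 1 / (1 - x) * x ^ a * |x * Fa x a ^ 2 + 2 * Fa x a * c a + c a ^ 2| ≤
        1 / (1 - x) * x ^ a * 9 := mul_le_mul_of_nonneg_left h4 h5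
      _ = _ := by ring
  have h1 : Tendsto (fun N : ℕ => ∑ a ∈ range N, (Fa x a ^ 2 * x ^ a - lh a ^ 2 * x ^ a)) atTop
      (𝓝 (T 0 - 0)) := by
    have : (fun N : ℕ => ∑ a ∈ range N, (Fa x a ^ 2 * x ^ a - lh a ^ 2 * x ^ a)) =
        fun N => T 0 - T N := by
      funext N
      rw [← Finset.sum_range_sub' T N]
      exact sum_congr rfl fun a _ => hd a
    rw [this]
    exact hTlim.const_sub _
  have h2 := (hF.hasSum.sub hL.hasSum).tendsto_sum_nat
  have h3 := tendsto_nhds_unique h2 h1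
  have h4 : T 0 = -x := by
    simp only [hT, hc]
    rw [Fa_zero_sq hx hx2]
    simp only [range_zero, sum_empty]
    field_simp
    ring
  rw [h4, hF.tsum_eq_zero_add, Fa_zero_sq hx hx2] at h3
  simp only [pow_zero, mul_one] at h3
  linarith

end

end Pool.Agent.L7h32.DP
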