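import Pool.Agent.L7h32.DP.Kar1
import Pool.Agent.H306R2.EPLim
import Pool.Agent.L7h11.DP.Stm

set_option autoImplicit false

/-! Mean values of nonnegative multiplicative functions close to `κ` on the primes. -/

namespace Pool.Agent.L7h32.DP

open Finset Filter Topology MeasureTheory
open Pool.Agent.H306R2

noncomputable section

/-- hypotheses -/
structure GH (g : ℕ → ℝ) (κ C : ℝ) : Prop where
  one : g 1 = 1
  nn : ∀ n, 0 ≤ g n
  mul : ∀ m n : ℕ, Nat.Coprime m n → g (m * n) = g m * g n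
  bd : ∀ p a : ℕ, p.Prime → g (p ^ a) ≤ C
  fst : ∀ p : ℕ, p.Prime → |g p - κ| ≤ C * (p : ℝ) ^ (-(1 / 2) : ℝ)

/-- local factor -/
def EE (g : ℕ → ℝ) (p : ℕ) (x : ℝ) : ℝ := ∑' m : ℕ, g (p ^ m) * x ^ m

/-- logarithm of the local factor of the quotient -/
def uu (g : ℕ → ℝ) (κ : ℝ) (p : ℕ) (x : ℝ) : ℝ := Real.log (EE g p x) + κ * Real.log (1 - x)

variable {g : ℕ → ℝ} {κ C : ℝ}

lemma GH.C1 (H : GH g κ C) : 1 ≤ C := by
  have := H.bd 2 0 Nat.prime_two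
  rwa [pow_zero, H.one] at this

lemma EE_summable (H : GH g κ C) {p : ℕ} (hp : p.Prime) {x : ℝ} (hx : 0 ≤ x) (hx2 : x ≤ 1 / 2) :
    Summable (fun m : ℕ => g (p ^ m) * x ^ m) := by
  refine Summable.of_nonneg_of_le (fun m => mul_nonneg (H.nn _) (pow_nonneg hx m)) (fun m => ?_)
    ((summable_geometric_of_lt_one hx (by linarith)).mul_left C)
  exact mul_le_mul_of_nonneg_right (H.bd p m hp) (pow_nonneg hx m)

lemma EE_bd (H : GH g κ C) {p : ℕ} (hp : p.Prime) {x : ℝ} (hx : 0 ≤ x) (hx2 : x ≤ 1 / 2) :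
    0 ≤ EE g p x - 1 - g p * x ∧ EE g p x - 1 - g p * x ≤ 2 * C * x ^ 2 := by
  have hs := EE_summable H hp hx hx2
  have hC := H.C1
  have h1 : ∑ m ∈ range 2, g (p ^ m) * x ^ m + ∑' m : ℕ, g (p ^ (m + 2)) * x ^ (m + 2) = EE g p x :=
    hs.sum_add_tsum_nat_add 2
  simp only [sum_range_succ, sum_range_zero, zero_add, pow_zero, H.one, mul_one, pow_one] at h1
  have hs2 : Summable (fun m : ℕ => g (p ^ (m + 2)) * x ^ (m + 2)) :=
    (summable_nat_add_iff 2).mpr hs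
  have h2 : 0 ≤ ∑' m : ℕ, g (p ^ (m + 2)) * x ^ (m + 2) :=
    tsum_nonneg fun m => mul_nonneg (H.nn _) (pow_nonneg hx _)
  have h3 : ∑' m : ℕ, g (p ^ (m + 2)) * x ^ (m + 2) ≤ ∑' m : ℕ, (C * x ^ 2) * x ^ m := by
    refine hs2.tsum_le_tsum (fun m => ?_) ((summable_geometric_of_lt_one hx (by linarith)).mul_left _)
    have e : C * x ^ 2 * x ^ m = C * x ^ (m + 2) := by ring
    rw [e]
    exact mul_le_mul_of_nonneg_right (H.bd p (m + 2) hp) (by positivity)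
  rw [tsum_mul_left, tsum_geometric_of_lt_one hx (by linarith)] at h3
  have h4 : (1 - x)⁻¹ ≤ 2 := by
    rw [inv_le_comm₀ (by linarith) (by norm_num)]
    linarith
  have h5 : C * x ^ 2 * (1 - x)⁻¹ ≤ C * x ^ 2 * 2 := mul_le_mul_of_nonneg_left h4 (by positivity)
  constructor
  · linarith
  · linarith

lemma EE_ge (H : GH g κ C) {p : ℕ} (hp : p.Prime) {x : ℝ} (hx : 0 ≤ x) (hx2 : x ≤ 1 / 2) :
    1 ≤ EE g p x := by
  have h1 := (EE_bd H hp hx hx2).1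
  have h2 := mul_nonneg (H.nn p) hx
  linarith

lemma uu_bd (H : GH g κ C) (hκ : 0 < κ) {p : ℕ} (hp : p.Prime) {x : ℝ} (hx : 0 ≤ x)
    (hxp : x ≤ 1 / p) :
    |uu g κ p x| ≤ (4 * C ^ 2 + 2 * κ + 3 * C) * (p : ℝ) ^ (-(3 / 2) : ℝ) := by
  have hC := H.C1
  have hx2 : x ≤ 1 / 2 := hxp.trans (inv_prime hp).2
  obtain ⟨h1, h2⟩ := EE_bd H hp hx hx2
  have hge := EE_ge H hp hx hx2
  have hgp : g p ≤ C := by have := H.bd p 1 hp; rwa [pow_one] at this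
  have hgp0 := H.nn p
  have hp0 : (0 : ℝ) < p := by exact_mod_cast hp.pos
  have hp1 : (1 : ℝ) ≤ p := by exact_mod_cast hp.one_lt.le
  set y := EE g p x - 1 with hy
  have hy0 : 0 ≤ y := by linarith
  have hyC : y ≤ 2 * C * x := by
    have : 2 * C * x ^ 2 ≤ C * x := by nlinarith [mul_nonneg (by linarith : 0 ≤ C) hx]
    have := mul_le_mul_of_nonneg_right hgp hx
    linarith
  have hy2 : y ^ 2 ≤ 4 * C ^ 2 * x ^ 2 := by
    have := pow_le_pow_left₀ hy0 hyC 2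
    calc y ^ 2 ≤ (2 * C * x) ^ 2 := this
      _ = _ := by ring
  have l1 := log_bd hy0
  have l2 := log_bd' hx hx2
  have l3 := H.fst p hp
  have e1 : uu g κ p x = (Real.log (1 + y) - y) + κ * (Real.log (1 - x) + x) + (y - g p * x) +
      (g p - κ) * x := by
    unfold uu
    rw [show EE g p x = 1 + y by rw [hy]; ring]
    ring
  have hxx : x ^ 2 ≤ (p : ℝ) ^ (-(3 / 2) : ℝ) := by
    have h3 : x ^ 2 ≤ (1 / (p : ℝ)) ^ 2 := pow_le_pow_left₀ hx hxp 2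
    have h4 : (1 / (p : ℝ)) ^ 2 = (p : ℝ) ^ (-2 : ℝ) := by
      rw [Real.rpow_neg hp0.le, one_div, inv_pow]
      norm_num
    rw [h4] at h3
    exact h3.trans (Real.rpow_le_rpow_of_exponent_le hp1 (by norm_num))
  have hx3 : (p : ℝ) ^ (-(1 / 2) : ℝ) * x ≤ (p : ℝ) ^ (-(3 / 2) : ℝ) := by
    have h5 : (p : ℝ) ^ (-(3 / 2) : ℝ) = (p : ℝ) ^ (-(1 / 2) : ℝ) * (1 / p) := by
      have h6 : (1 : ℝ) / p = (p : ℝ) ^ (-1 : ℝ) := by rw [Real.rpow_neg_one, one_div]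
      rw [h6, ← Real.rpow_add hp0]
      norm_num
    rw [h5]
    exact mul_le_mul_of_nonneg_left hxp (by positivity)
  rw [e1]
  have t1 : |κ * (Real.log (1 - x) + x)| ≤ κ * (2 * x ^ 2) := by
    rw [abs_mul, abs_of_pos hκ]
    exact mul_le_mul_of_nonneg_left l2 hκ.le
  have t2 : |y - g p * x| ≤ 2 * C * x ^ 2 := by
    rw [abs_of_nonneg h1]; exact h2
  have t3 : |(g p - κ) * x| ≤ C * (p : ℝ) ^ (-(3 / 2) : ℝ) := by
    rw [abs_mul, abs_of_nonneg hx]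
    calc |g p - κ| * x ≤ C * (p : ℝ) ^ (-(1 / 2) : ℝ) * x := mul_le_mul_of_nonneg_right l3 hx
      _ = C * ((p : ℝ) ^ (-(1 / 2) : ℝ) * x) := by ring
      _ ≤ _ := mul_le_mul_of_nonneg_left hx3 (by linarith)
  have t4 := abs_add_le ((Real.log (1 + y) - y) + κ * (Real.log (1 - x) + x) + (y - g p * x))
    ((g p - κ) * x)
  have t5 := abs_add_le ((Real.log (1 + y) - y) + κ * (Real.log (1 - x) + x)) (y - g p * x)
  have t6 := abs_add_le (Real.log (1 + y) - y) (κ * (Real.log (1 - x) + x))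
  have t7 : (4 * C ^ 2 + 2 * κ + 2 * C) * x ^ 2 ≤
      (4 * C ^ 2 + 2 * κ + 2 * C) * (p : ℝ) ^ (-(3 / 2) : ℝ) :=
    mul_le_mul_of_nonneg_left hxx (by positivity)
  nlinarith [t1, t2, t3, t4, t5, t6, t7, l1, hy2]

lemma uu_bd_summable (D : ℝ) : Summable (fun p : Nat.Primes => D * ((p : ℕ) : ℝ) ^ (-(3 / 2) : ℝ)) :=
  (Nat.Primes.summable_rpow.mpr (by norm_num)).mul_left D

lemma uu_summable (H : GH g κ C) (hκ : 0 < κ) {σ : ℝ} (hσ : 0 ≤ σ) :
    Summable (fun p : Nat.Primes => uu g κ p ((p : ℕ) ^ (-1 - σ) : ℝ)) := by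
  refine Summable.of_norm_bounded (uu_bd_summable (4 * C ^ 2 + 2 * κ + 3 * C)) fun p => ?_
  have h := rpow_term p.2 hσ
  exact uu_bd H hκ p.2 h.1.le h.2.1

lemma uu_hasProd (H : GH g κ C) (hκ : 0 < κ) {σ : ℝ} (hσ : 0 ≤ σ) :
    HasProd (fun p : Nat.Primes => EE g p (((p : ℕ) : ℝ) ^ (-1 - σ)) *
        (1 - ((p : ℕ) : ℝ) ^ (-1 - σ)) ^ κ)
      (Real.exp (∑' p : Nat.Primes, uu g κ p (((p : ℕ) : ℝ) ^ (-1 - σ)))) := by
  have h0 : ∀ p : Nat.Primes, Real.exp (uu g κ p (((p : ℕ) : ℝ) ^ (-1 - σ))) =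
      EE g p (((p : ℕ) : ℝ) ^ (-1 - σ)) * (1 - ((p : ℕ) : ℝ) ^ (-1 - σ)) ^ κ := by
    intro p
    have h1 := rpow_term p.2 hσ
    have h2 := (inv_prime p.2).2
    have h3 : 0 < 1 - ((p : ℕ) : ℝ) ^ (-1 - σ) := by linarith
    have h4 := EE_ge H p.2 h1.1.le (h1.2.1.trans h2)
    unfold uu
    rw [Real.exp_add, Real.exp_log (by linarith), Real.rpow_def_of_pos h3, mul_comm κ]
  refine Real.hasProd_of_hasSum_log (fun p => ?_) ?_
  · rw [← h0]; positivity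
  · simp only [← h0, Real.log_exp]
    exact (uu_summable H hκ hσ).hasSum

/-- Dirichlet series term -/
def ff (g : ℕ → ℝ) (σ : ℝ) (n : ℕ) : ℝ := g n / n * (n : ℝ) ^ (-σ)

lemma ff_zero (σ : ℝ) : ff g σ 0 = 0 := by simp [ff]

lemma ff_one (H : GH g κ C) (σ : ℝ) : ff g σ 1 = 1 := by simp [ff, H.one]

lemma ff_mul (H : GH g κ C) (σ : ℝ) {m n : ℕ} (h : Nat.Coprime m n) :
    ff g σ (m * n) = ff g σ m * ff g σ n := by
  unfold ff
  rw [H.mul m n h]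
  push_cast
  rw [Real.mul_rpow (by positivity) (by positivity)]
  ring

lemma ff_pp {p : ℕ} (hp : p.Prime) (σ : ℝ) (m : ℕ) :
    ff g σ (p ^ m) = g (p ^ m) * ((p : ℝ) ^ (-1 - σ)) ^ m := by
  have hp0 : (0 : ℝ) < p := by exact_mod_cast hp.pos
  unfold ff
  push_cast
  rw [← Real.rpow_natCast ((p : ℝ) ^ (-1 - σ)) m, ← Real.rpow_mul hp0.le, ← Real.rpow_natCast,
    ← Real.rpow_mul hp0.le, div_mul_eq_mul_div, mul_div_assoc, ← Real.rpow_sub hp0]
  congr 2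
  ring

lemma lc_ge {J : ℕ} (hJ : 1 ≤ J) (a : ℕ) (ha : 1 ≤ a) : (J : ℝ) ≤ lc J a := by
  induction a with
  | zero => omega
  | succ a ih =>
    rcases Nat.eq_zero_or_pos a with h | h
    · subst h; rw [zero_add, lc_one]
    · rw [lc_succ]
      have h1 := ih h
      have h2 : (1 : ℝ) ≤ (J + a) / ((a : ℝ) + 1) := by
        rw [one_le_div (by positivity)]
        have : (1 : ℝ) ≤ J := by exact_mod_cast hJ
        linarith
      calc (J : ℝ) ≤ lc J a := h1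
        _ = lc J a * 1 := (mul_one _).symm
        _ ≤ _ := mul_le_mul_of_nonneg_left h2 (lc_nonneg (by positivity) a)

lemma g_le_dv (H : GH g κ C) : ∃ J : ℕ, ∀ n : ℕ, n ≠ 0 → g n ≤ dv J n := by
  obtain ⟨J, hJ⟩ := exists_nat_ge C
  have hC := H.C1
  have hJ1 : 1 ≤ J := by exact_mod_cast hC.trans hJ
  refine ⟨J, fun n hn => ?_⟩
  rw [Nat.multiplicative_factorization g H.mul H.one hn]
  unfold dv
  rw [if_neg hn]
  refine Finset.prod_le_prod (fun p _ => H.nn _) fun p hp => ?_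
  have hp' : p.Prime := Nat.prime_of_mem_primeFactors (by simpa using hp)
  have h1 : 1 ≤ n.factorization p := Nat.one_le_iff_ne_zero.mpr (Finsupp.mem_support_iff.mp hp)
  exact (H.bd p _ hp').trans (hJ.trans (lc_ge hJ1 _ h1))

lemma ff_summable (H : GH g κ C) {σ : ℝ} (hσ : 0 < σ) : Summable (ff g σ) := by
  obtain ⟨J, hJ⟩ := g_le_dv H
  refine Summable.of_nonneg_of_le (fun n => ?_) (fun n => ?_) (dvJ_summable J hσ)
  · unfold ff
    have := H.nn n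
    positivity
  · rcases Nat.eq_zero_or_pos n with h | h
    · subst h; rw [ff_zero]; simp [dv]
    · have hn : (0 : ℝ) < n := by exact_mod_cast h
      unfold ff
      rw [show (-1 - σ : ℝ) = -σ - 1 by ring, Real.rpow_sub hn, Real.rpow_one]
      have := hJ n h.ne'
      have h2 : g n / n * (n : ℝ) ^ (-σ) = g n * ((n : ℝ) ^ (-σ) / n) := by ring
      rw [h2]
      exact mul_le_mul_of_nonneg_right this (by positivity)

lemma ff_tsum (H : GH g κ C) (hκ : 0 < κ) {σ : ℝ} (hσ : 0 < σ) :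
    ∑' n, ff g σ n =
      Real.exp (∑' p : Nat.Primes, uu g κ p (((p : ℕ) : ℝ) ^ (-1 - σ))) * Zr σ ^ κ := by
  have hsum := ff_summable H hσ
  have h1 : HasProd (fun p : Nat.Primes => ∑' m : ℕ, ff g σ ((p : ℕ) ^ m)) (∑' n, ff g σ n) :=
    EulerProduct.eulerProduct_hasProd (ff_one H σ) (fun {m n} h => ff_mul H σ h) hsum.norm (ff_zero σ)
  have h2 := uu_hasProd H hκ hσ.le
  have h3 : HasProd (fun p : Nat.Primes => ((1 - ((p:ℕ):ℝ) ^ (-1 - σ))⁻¹) ^ κ) (Zr σ ^ κ) := by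
    refine HasProd.rpow (Zr_hasProd hσ) (fun p => ?_) (Zr_pos hσ) _
    have h1 := rpow_term p.2 hσ.le
    have h2 := (inv_prime p.2).2
    have : 0 ≤ 1 - ((p:ℕ):ℝ) ^ (-1 - σ) := by linarith
    positivity
  refine HasProd.unique h1 ((h2.mul h3).congr_fun ?_)
  intro p
  have h1 := rpow_term p.2 hσ.le
  have h2 := (inv_prime p.2).2
  have h3 : 0 < 1 - ((p:ℕ):ℝ) ^ (-1 - σ) := by linarith
  rw [mul_assoc, ← Real.mul_rpow h3.le (by positivity), mul_inv_cancel₀ h3.ne', Real.one_rpow,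
    mul_one]
  unfold EE
  exact tsum_congr fun m => ff_pp p.2 σ m

lemma EE_tendsto (H : GH g κ C) {p : ℕ} (hp : p.Prime) {β : Type*} (l : Filter β) (x : β → ℝ)
    (x0 : ℝ) (h : Tendsto x l (𝓝 x0)) (hx : ∀ᶠ b in l, 0 ≤ x b ∧ x b ≤ 1 / 2) :
    Tendsto (fun b => EE g p (x b)) l (𝓝 (EE g p x0)) := by
  have hC := H.C1
  unfold EE
  refine tendsto_tsum_of_dominated_convergence (bound := fun m : ℕ => C * (1 / 2 : ℝ) ^ m)
    ((summable_geometric_of_lt_one (by norm_num) (by norm_num)).mul_left _)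
    (fun m => (h.pow m).const_mul _) ?_
  filter_upwards [hx] with b hb m
  rw [Real.norm_of_nonneg (mul_nonneg (H.nn _) (pow_nonneg hb.1 m))]
  exact mul_le_mul (H.bd p m hp) (pow_le_pow_left₀ hb.1 hb.2 m) (pow_nonneg hb.1 m) (by linarith)

lemma uu_tendsto (H : GH g κ C) {p : ℕ} (hp : p.Prime) {s : ℝ} (hs : 0 < s) :
    Tendsto (fun L : ℝ => uu g κ p ((p : ℝ) ^ (-1 - s / L))) atTop
      (𝓝 (uu g κ p ((p : ℝ) ^ (-1 - (0 : ℝ))))) := by
  have hp0 : (p:ℝ) ≠ 0 := by exact_mod_cast hp.ne_zero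
  have h0 : Tendsto (fun L : ℝ => s / L) atTop (𝓝 0) := tendsto_const_nhds.div_atTop tendsto_id
  have h1 : Tendsto (fun L : ℝ => (p : ℝ) ^ (-1 - s / L)) atTop (𝓝 ((p : ℝ) ^ (-1 - (0 : ℝ)))) :=
    Tendsto.rpow tendsto_const_nhds (h0.const_sub _) (Or.inl hp0)
  have r0 := rpow_term hp (le_refl (0 : ℝ))
  have hh := (inv_prime hp).2
  unfold uu
  refine Tendsto.add ?_ (Tendsto.const_mul _ ?_)
  · refine Tendsto.log (EE_tendsto H hp atTop _ _ h1 ?_) ?_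
    · filter_upwards [eventually_gt_atTop 0] with L hL
      have r := rpow_term hp (div_pos hs hL).le
      exact ⟨r.1.le, r.2.1.trans hh⟩
    · have := EE_ge H hp r0.1.le (r0.2.1.trans hh)
      linarith
  · refine Tendsto.log (h1.const_sub _) ?_
    have h7 := r0.2.1.trans hh
    exact (sub_pos.mpr (lt_of_le_of_lt h7 (by norm_num))).ne'

lemma uu_tsum_tendsto (H : GH g κ C) (hκ : 0 < κ) {s : ℝ} (hs : 0 < s) :
    Tendsto (fun L : ℝ => ∑' p : Nat.Primes, uu g κ p (((p : ℕ) : ℝ) ^ (-1 - s / L))) atTop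
      (𝓝 (∑' p : Nat.Primes, uu g κ p (((p : ℕ) : ℝ) ^ (-1 - (0 : ℝ))))) := by
  refine tendsto_tsum_of_dominated_convergence (uu_bd_summable (4 * C ^ 2 + 2 * κ + 3 * C))
    (fun p => uu_tendsto H p.2 hs) ?_
  filter_upwards [eventually_gt_atTop 0] with L hL p
  have h := rpow_term p.2 (div_pos hs hL).le
  exact uu_bd H hκ p.2 h.1.le h.2.1

lemma ff_lim (H : GH g κ C) (hκ : 0 < κ) {s : ℝ} (hs : 0 < s) :
    Tendsto (fun L : ℝ => (∑' n, ff g (s / L) n) / L ^ κ) atTop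
      (𝓝 (Real.exp (∑' p : Nat.Primes, uu g κ p (((p : ℕ) : ℝ) ^ (-1 - (0 : ℝ)))) * s ^ (-κ))) := by
  have h2 := (uu_tsum_tendsto H hκ hs).rexp
  have h3 : Tendsto (fun L : ℝ => (Zr (s / L) / L) ^ κ) atTop (𝓝 (s⁻¹ ^ κ)) :=
    (Zr_tendsto hs).rpow_const (Or.inl (inv_ne_zero hs.ne'))
  have h4 := h2.mul h3
  rw [Real.inv_rpow hs.le, ← Real.rpow_neg hs.le] at h4
  refine h4.congr' ?_
  filter_upwards [eventually_gt_atTop 0] with L hL
  rw [ff_tsum H hκ (div_pos hs hL), mul_div_assoc,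
    Real.div_rpow (Zr_pos (div_pos hs hL)).le hL.le]

theorem wirsing (H : GH g κ C) (hκ : 0 < κ) :
    Tendsto (fun x : ℝ => (∑ d ∈ Icc 1 ⌊Real.exp x⌋₊, g d / d) / x ^ κ) atTop
      (𝓝 ((∏' p : Nat.Primes, ((1 - 1 / (p : ℝ)) ^ κ *
        ∑' m : ℕ, g ((p : ℕ) ^ m) * (1 / (p : ℝ)) ^ m)) / Real.Gamma (κ + 1))) := by
  have hP := (uu_hasProd H hκ (le_refl (0 : ℝ)))
  have e1 : (∏' p : Nat.Primes, ((1 - 1 / (p : ℝ)) ^ κ *
        ∑' m : ℕ, g ((p : ℕ) ^ m) * (1 / (p : ℝ)) ^ m)) =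
      Real.exp (∑' p : Nat.Primes, uu g κ p (((p : ℕ) : ℝ) ^ (-1 - (0 : ℝ)))) := by
    rw [← hP.tprod_eq]
    refine tprod_congr fun p => ?_
    rw [mul_comm, sub_zero, Real.rpow_neg_one, one_div]
    rfl
  rw [e1]
  refine kar_sum (w := fun n : ℕ => g n / n) (fun n => ?_) (by simp) (fun s hs => ?_) hκ
    (Real.exp_pos _) (fun s hs => ?_)
  · have := H.nn n
    positivity
  · exact ff_summable H hs
  · exact ff_lim H hκ hs

theorem s_wir : Pool.Agent.L7h11.DP.S_WIR := by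
  intro g h1 h2 h3 C h4 h5
  have H : GH g (1 / 4) C := ⟨h1, h2, h3, h4, h5⟩
  have := wirsing H (by norm_num)
  rw [show (1 / 4 : ℝ) + 1 = 5 / 4 by norm_num] at this
  exact this

end

end Pool.Agent.L7h32.DP
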